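import Mathlib

/-!
# An ultimately bipartite subtraction game whose subtraction set is expandable

The subtraction game with subtraction set `S = {3, 11, 15}` is ultimately bipartite, and the set
`S^ex` of all `s` that may be adjoined to `S` without changing the nim-sequence is
`{3, 9, 11, 15}`.  It is neither `S` nor `S^{*2} = {s + 2 m : s ∈ S, m ≥ 0}`.
-/

namespace Pool.Agent.Results.MP_bd62ae_co.ExpandableBipartite

/-- The nim-value of a pile of `n` coins in the subtraction game on `S`: the least `k` which is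
different from all nim-values `nimValue S (n - s)` of the options, `s ∈ S`, `1 ≤ s ≤ n`. -/
noncomputable def nimValue (S : Finset ℕ) : ℕ → ℕ
  | n => sInf {k : ℕ | ∀ s ∈ S, ∀ _h : 1 ≤ s ∧ s ≤ n, nimValue S (n - s) ≠ k}
termination_by n => n
decreasing_by omega

/-- The (positive) numbers `p` which are periods of the nim-sequence from some point on. -/
def EventualPeriods (S : Finset ℕ) : Set ℕ :=
  {p | 1 ≤ p ∧ ∃ n₀, ∀ n, n₀ ≤ n → nimValue S (n + p) = nimValue S n}

/-- The game on `S` is ultimately bipartite: its period (the least eventual period) is `2`, and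
from some point on the nim-values alternate `0, 1, 0, 1, …`. -/
def UltimatelyBipartite (S : Finset ℕ) : Prop :=
  IsLeast (EventualPeriods S) 2 ∧
    ∃ n₀, ∀ k, nimValue S (n₀ + 2 * k) = 0 ∧ nimValue S (n₀ + 2 * k + 1) = 1

/-- `S^ex`: all positive integers `s` with `nimValue S (n + s) ≠ nimValue S n` for all `n ≥ 0`. -/
def expansion (S : Finset ℕ) : Set ℕ :=
  {s | 1 ≤ s ∧ ∀ n, nimValue S (n + s) ≠ nimValue S n}

/-- `S^{*p} = {s + m p : s ∈ S, m ≥ 0}`. -/
def starSet (S : Finset ℕ) (p : ℕ) : Set ℕ := {t | ∃ s ∈ S, ∃ m : ℕ, t = s + m * p}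

/-- the nim-values of `{3, 11, 15}` for piles of fewer than `26` coins -/
def T : List ℕ := [0,0,0,1,1,1,0,0,0,1,1,1,2,2,0,3,3,1,2,2,0,3,3,1,0,2]

/-- the nim-sequence of `{3, 11, 15}` -/
def g (n : ℕ) : ℕ := if n < 26 then T.getD n 0 else n % 2

theorem small : ∀ n < 41, (∀ s ∈ ({3, 11, 15} : Finset ℕ), s ≤ n → g (n - s) ≠ g n) ∧
    ∀ k < g n, ∃ s ∈ ({3, 11, 15} : Finset ℕ), s ≤ n ∧ g (n - s) = k := by
  decide

theorem g_large {n : ℕ} (h : 26 ≤ n) : g n = n % 2 := by
  unfold g; rw [if_neg (by omega)]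

theorem rule (n : ℕ) : (∀ s ∈ ({3, 11, 15} : Finset ℕ), s ≤ n → g (n - s) ≠ g n) ∧
    ∀ k < g n, ∃ s ∈ ({3, 11, 15} : Finset ℕ), s ≤ n ∧ g (n - s) = k := by
  rcases Nat.lt_or_ge n 41 with h | h
  · exact small n h
  · constructor
    · intro s hs hsn
      have hs' : s = 3 ∨ s = 11 ∨ s = 15 := by simpa using hs
      rw [g_large (show 26 ≤ n by omega), g_large (show 26 ≤ n - s by omega)]
      omega
    · intro k hk
      rw [g_large (show 26 ≤ n by omega)] at hk
      refine ⟨3, by simp, by omega, ?_⟩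
      rw [g_large (show 26 ≤ n - 3 by omega)]
      omega

theorem nimValue_eq (n : ℕ) : nimValue {3, 11, 15} n = g n := by
  induction n using Nat.strong_induction_on with
  | _ n ih =>
    rw [nimValue]
    have hset : {k : ℕ | ∀ s ∈ ({3, 11, 15} : Finset ℕ), ∀ _h : 1 ≤ s ∧ s ≤ n,
        nimValue {3, 11, 15} (n - s) ≠ k} =
        {k : ℕ | ∀ s ∈ ({3, 11, 15} : Finset ℕ), s ≤ n → g (n - s) ≠ k} := by
      ext k
      simp only [Set.mem_setOf_eq]
      constructor
      · intro hk s hs hsn
        have hs' : s = 3 ∨ s = 11 ∨ s = 15 := by simpa using hs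
        have := hk s hs ⟨by omega, hsn⟩
        rwa [ih (n - s) (by omega)] at this
      · intro hk s hs hsn
        rw [ih (n - s) (by omega)]
        exact hk s hs hsn.2
    rw [hset]
    obtain ⟨h1, h2⟩ := rule n
    apply le_antisymm
    · exact Nat.sInf_le h1
    · by_contra hlt
      push Not at hlt
      obtain ⟨s, hs, hsn, hk⟩ := h2 _ hlt
      have hne : {k : ℕ | ∀ s ∈ ({3, 11, 15} : Finset ℕ), s ≤ n → g (n - s) ≠ k}.Nonempty :=
        ⟨g n, h1⟩
      exact Nat.sInf_mem hne s hs hsn hk

theorem expansion_eq : expansion {3, 11, 15} = {3, 9, 11, 15} := by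
  have hsmall : ∀ s < 26, (∀ n < 26, g (n + s) ≠ g n) → s = 3 ∨ s = 9 ∨ s = 11 ∨ s = 15 := by
    decide
  have hsmall2 : ∀ s < 16, s = 3 ∨ s = 9 ∨ s = 11 ∨ s = 15 → ∀ n < 26, g (n + s) ≠ g n := by
    decide
  ext s
  simp only [expansion, Set.mem_setOf_eq, Set.mem_insert_iff, Set.mem_singleton_iff, nimValue_eq]
  constructor
  · rintro ⟨_, hs⟩
    rcases Nat.lt_or_ge s 26 with h | h
    · exact hsmall s h fun n _ => hs n
    · exfalso
      rcases Nat.even_or_odd s with he | ho
      · apply hs 26
        rw [g_large (by omega), g_large (by omega)]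
        obtain ⟨c, rfl⟩ := he
        omega
      · apply hs 1
        rw [g_large (by omega)]
        obtain ⟨c, rfl⟩ := ho
        have : g 1 = 0 := by decide
        rw [this]
        omega
  · intro hs
    refine ⟨by omega, fun n => ?_⟩
    rcases Nat.lt_or_ge n 26 with h | h
    · exact hsmall2 s (by omega) hs n h
    · rw [g_large (by omega), g_large h]
      omega

theorem bipartite : UltimatelyBipartite {3, 11, 15} := by
  constructor
  · constructor
    · refine ⟨by norm_num, 26, fun n hn => ?_⟩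
      rw [nimValue_eq, nimValue_eq, g_large (by omega), g_large hn]
      omega
    · rintro p ⟨hp, n₀, h⟩
      by_contra hlt
      have hp1 : p = 1 := by omega
      subst hp1
      have := h (n₀ + 26) (by omega)
      rw [nimValue_eq, nimValue_eq, g_large (by omega), g_large (by omega)] at this
      omega
  · refine ⟨26, fun k => ⟨?_, ?_⟩⟩
    · rw [nimValue_eq, g_large (by omega)]; omega
    · rw [nimValue_eq, g_large (by omega)]; omega

/-- The subtraction set `{3, 11, 15}` gives an ultimately bipartite game, its set `S^ex` equals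
`{3, 9, 11, 15}`, and this is neither `S` nor `S^{*2}`: an ultimately bipartite subtraction game
may be expandable. -/
theorem result :
    UltimatelyBipartite {3, 11, 15} ∧
    expansion {3, 11, 15} = {3, 9, 11, 15} ∧
    expansion {3, 11, 15} ≠ (({3, 11, 15} : Finset ℕ) : Set ℕ) ∧
    expansion {3, 11, 15} ≠ starSet {3, 11, 15} 2 := by
  refine ⟨bipartite, expansion_eq, ?_, ?_⟩
  · rw [expansion_eq]
    intro h
    have h9 : (9 : ℕ) ∈ ({3, 9, 11, 15} : Set ℕ) := by simp
    rw [h] at h9
    simp at h9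
  · rw [expansion_eq]
    intro h
    have h5 : (5 : ℕ) ∈ starSet {3, 11, 15} 2 := ⟨3, by simp, 1, by norm_num⟩
    rw [← h] at h5
    simp at h5

end Pool.Agent.Results.MP_bd62ae_co.ExpandableBipartite
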